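import Pool.Agent.Lib_MP_7e2af8_co.Final

/-!
# Non-spanning subsets of size `2p - 2` in `ZMod p × ZMod p`

For every prime `p ≥ 5` we determine all sets `A ⊆ ZMod p × ZMod p` with `2p - 2` elements whose
subset sums do not cover the whole group.  For `p ≥ 7` they are exactly the sets
`A = H ∪ A₁ ∪ A₂` with `H` a subgroup of order `p`, `a ∉ H`, `A₁ ⊆ a + H`, `A₂ ⊆ -a + H`.
For `p = 5` there are, besides these, exactly the sets which arise from seven explicit sets by
automorphisms of the group and by replacing elements by their negatives.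

Outline of the proof.  Put `S = A \ {0}`.  If no line (subgroup of order `p`) is contained in `A`,
then for a line `H` let `n_c` be the number of elements of `S` in the coset `c` of `H`.  The theorem
of Dias da Silva and Hamidoune and the theorem of Cauchy and Davenport show that `ΣS` contains the
coset `t` as soon as there are `j_c ≤ n_c` with `∑ c j_c = t` and
`∑_{c ≠ 0} j_c (n_c - j_c) + ⌊(n_0 + 1)^2 / 4⌋ ≥ p - 1`.
A double count over the `p + 1` lines gives a line for which this works for all `t` if `p ≥ 11`.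
The primes `5` and `7` are treated by a search verified in the kernel.
-/

namespace Pool.Agent.Results.MP_7e2af8_co.Classification

/-- The set `ΣA` of all subset sums of `A`; the empty sum `0` is included. -/
def subsetSums {p : ℕ} (A : Finset (ZMod p × ZMod p)) : Set (ZMod p × ZMod p) :=
  {x | ∃ B ⊆ A, ∑ b ∈ B, b = x}

/-- `A = H ∪ A₁ ∪ A₂` for a subgroup `H` of order `p`, an element `a ∉ H`, and sets
`A₁ ⊆ a + H`, `A₂ ⊆ -a + H`. -/
def IsCosetType {p : ℕ} (A : Finset (ZMod p × ZMod p)) : Prop :=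
  ∃ (H : AddSubgroup (ZMod p × ZMod p)) (a : ZMod p × ZMod p) (A₁ A₂ : Set (ZMod p × ZMod p)),
    Nat.card H = p ∧ a ∉ H ∧ (∀ x ∈ A₁, x - a ∈ H) ∧ (∀ x ∈ A₂, x + a ∈ H) ∧
    (A : Set (ZMod p × ZMod p)) = (H : Set (ZMod p × ZMod p)) ∪ A₁ ∪ A₂

/-- Seven lists of eight vectors; the coordinates are to be read modulo `5`. -/
def sporadicLists : List (List (ℕ × ℕ)) := [
  [(0, 0), (1, 0), (4, 0), (0, 1), (1, 1), (1, 4), (2, 1), (2, 4)],
  [(0, 0), (1, 0), (2, 0), (0, 1), (1, 1), (1, 4), (2, 1), (2, 4)],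
  [(0, 0), (1, 0), (4, 0), (1, 1), (4, 4), (0, 1), (1, 4), (2, 4)],
  [(0, 0), (1, 0), (4, 0), (1, 1), (4, 4), (1, 4), (4, 1), (0, 1)],
  [(0, 0), (1, 0), (4, 0), (0, 1), (0, 4), (1, 1), (4, 4), (2, 4)],
  [(0, 0), (1, 0), (2, 0), (0, 1), (1, 1), (4, 4), (1, 4), (4, 1)],
  [(0, 0), (1, 0), (4, 0), (0, 1), (0, 4), (1, 1), (4, 4), (1, 4)]
]

/-- `A` arises from `E` by replacing some elements by their negatives: for every `x` the sets `A`
and `E` have the same number of elements in `{x, -x}`. -/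
def SameUpToSigns {p : ℕ} (A E : Finset (ZMod p × ZMod p)) : Prop :=
  ∀ x, (A.filter (fun y => y = x ∨ y = -x)).card = (E.filter (fun y => y = x ∨ y = -x)).card

/-- `p = 5` and `A` arises from one of the seven sporadic sets by an automorphism of the group and
by replacing some elements by their negatives. -/
def IsSporadic {p : ℕ} (A : Finset (ZMod p × ZMod p)) : Prop :=
  p = 5 ∧ ∃ L ∈ sporadicLists, ∃ φ : (ZMod p × ZMod p) ≃+ (ZMod p × ZMod p),
    SameUpToSigns A ((L.map (fun x => ((x.1 : ZMod p), (x.2 : ZMod p)))).toFinset.image φ)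

/-- **Classification.** For a prime `p ≥ 5`, a set `A ⊆ ZMod p × ZMod p` with `2p - 2` elements
satisfies `ΣA ≠ ZMod p × ZMod p` if and only if `A = H ∪ A₁ ∪ A₂` with `H` a subgroup of order `p`,
`a ∉ H`, `A₁ ⊆ a + H`, `A₂ ⊆ -a + H`, or `p = 5` and `A` is one of the sporadic sets. -/
theorem result (p : ℕ) (hp : p.Prime) (h5 : 5 ≤ p) (A : Finset (ZMod p × ZMod p))
    (hA : A.card = 2 * p - 2) :
    subsetSums A ≠ Set.univ ↔ IsCosetType A ∨ IsSporadic A := by
  haveI : Fact p.Prime := ⟨hp⟩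
  have h1 : subsetSums A ≠ Set.univ ↔ ¬ Pool.Agent.MP7e2af8.Full A := by
    rw [Ne, Set.eq_univ_iff_forall]
    rfl
  have h2 : IsCosetType A ↔ Pool.Agent.MP7e2af8.CosetType A := by
    constructor
    · rintro ⟨H, a, A₁, A₂, hH, ha, h₁, h₂, hAeq⟩
      refine ⟨H, a, hH, ha, ?_, ?_⟩
      · rw [hAeq]
        intro x hx
        exact Or.inl (Or.inl hx)
      · intro x hx
        have hx' : x ∈ (A : Set (ZMod p × ZMod p)) := hx
        rw [hAeq] at hx'
        rcases hx' with (hx' | hx') | hx'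
        · exact Or.inl hx'
        · exact Or.inr (Or.inl (h₁ x hx'))
        · exact Or.inr (Or.inr (h₂ x hx'))
    · rintro ⟨H, a, hH, ha, hHA, hall⟩
      refine ⟨H, a, {x | x ∈ A ∧ x - a ∈ H}, {x | x ∈ A ∧ x + a ∈ H}, hH, ha,
        fun x hx => hx.2, fun x hx => hx.2, ?_⟩
      ext x
      constructor
      · intro hx
        rcases hall x hx with h | h | h
        · exact Or.inl (Or.inl h)
        · exact Or.inl (Or.inr ⟨hx, h⟩)
        · exact Or.inr ⟨hx, h⟩
      · rintro ((hx | hx) | hx)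
        · exact hHA hx
        · exact hx.1
        · exact hx.1
  have h3 : IsSporadic A ↔ Pool.Agent.MP7e2af8.Sporadic A := Iff.rfl
  rw [h1, h2, h3]
  exact Pool.Agent.MP7e2af8.main h5 A hA

end Pool.Agent.Results.MP_7e2af8_co.Classification
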